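import Pool.Agent.H159.AJ.Rec

/-!
# Families of diagrams with powers of braids
-/

set_option autoImplicit false

namespace Pool.Agent.H159.AJ

open Finset LaurentPolynomial Polynomial Pool.Agent.H891R2.Jones Pool.Agent.W639.RB Pool.Agent.Y463.SK

/-- reduction modulo `p ^ a` -/
noncomputable def red (p a : ℕ) : ℤ[T;T⁻¹] →+* LL p a :=
  AddMonoidAlgebra.mapRingHom ℤ (Int.castRingHom (ZMod (p ^ a)))

theorem red_coeff (p a : ℕ) (x : ℤ[T;T⁻¹]) (j : ℤ) :
    (red p a x).coeff j = ((x.coeff j : ℤ) : ZMod (p ^ a)) :=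
  AddMonoidAlgebra.coeff_mapRingHom _ _ _

theorem red_pow (p a : ℕ) : red p a ((p : ℤ[T;T⁻¹]) ^ a) = 0 := by
  rw [map_pow, map_natCast]
  have h3 : ((p ^ a : ℕ) : ZMod (p ^ a)) = 0 := ZMod.natCast_self _
  have h4 : ((p : LL p a)) ^ a = LaurentPolynomial.C ((p ^ a : ℕ) : ZMod (p ^ a)) := by
    rw [map_natCast]
    push_cast
    rfl
  rw [h4, h3, map_zero]

theorem red_eq_zero_iff (p a : ℕ) (x : ℤ[T;T⁻¹]) : red p a x = 0 ↔ (p : ℤ[T;T⁻¹]) ^ a ∣ x := by
  constructor
  · intro h
    have h1 : ∀ j, ((p ^ a : ℕ) : ℤ) ∣ x.coeff j := by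
      intro j
      rw [← ZMod.intCast_zmod_eq_zero_iff_dvd, ← red_coeff, h]
      rfl
    refine ⟨AddMonoidAlgebra.ofCoeff (x.coeff.mapRange (fun t => t / ((p ^ a : ℕ) : ℤ)) (by simp)), ?_⟩
    have h2 : ∀ y : ℤ[T;T⁻¹], (p : ℤ[T;T⁻¹]) ^ a * y = ((p ^ a : ℕ) : ℤ) • y := by
      intro y
      rw [zsmul_eq_mul]
      push_cast
      rfl
    rw [h2]
    ext j
    rw [AddMonoidAlgebra.coeff_smul, Finsupp.smul_apply]
    show _ = ((p ^ a : ℕ) : ℤ) • (x.coeff j / ((p ^ a : ℕ) : ℤ))
    rw [smul_eq_mul, Int.mul_ediv_cancel' (h1 j)]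
  · rintro ⟨y, rfl⟩
    rw [map_mul, red_pow, zero_mul]

variable {m k : ℕ}

/-- the words of a line in direction `i` -/
theorem line_word (w v : Fin k → List (Letter m)) (x : Fin k → ℤ) (i : Fin k) :
    ∃ pre post : List (Letter m), ∀ t : ℤ,
      multiW w v (Function.update x i t) = pre ++ (powW (w i) t ++ post) := by
  obtain ⟨pre, post, h⟩ := flatten_update k (fun j => powW (w j) (x j) ++ v j) i
  refine ⟨pre, v i ++ post, fun t => ?_⟩
  have h2 : (fun j => powW (w j) (Function.update x i t j) ++ v j) =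
      Function.update (fun j => powW (w j) (x j) ++ v j) i (powW (w i) t ++ v i) := by
    funext j
    by_cases hj : j = i
    · subst hj; rw [Function.update_self, Function.update_self]
    · rw [Function.update_of_ne hj, Function.update_of_ne hj]
  unfold multiW
  rw [h2, h]
  simp only [List.append_assoc]

/-- the brackets of a line in direction `i` -/
theorem line_poly (O : Outer m) (w v : Fin k → List (Letter m)) (x : Fin k → ℤ) (i : Fin k) :
    ∃ (O' : Outer m) (post : List (Bool × ℕ)), (∀ y ∈ post, y.2 + 1 < m) ∧ ∀ t : ℤ,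
      (dia O (multiW w v (Function.update x i t))).fPoly = ff O' (powL (toN (w i)) t ++ post) := by
  obtain ⟨pre, post, h⟩ := line_word w v x i
  refine ⟨draw O (toN pre), toN post, toN_lt _, fun t => ?_⟩
  rw [dia_fPoly, h, toN_append, toN_append, toN_pow]
  unfold ff
  rw [draw_append]

theorem permW_append (w w' : List (Letter m)) : permW (w ++ w') = permW w * permW w' := by
  simp [permW]

theorem permW_pow (w : List (Letter m)) (r : ℕ) : permW (powW w (r : ℤ)) = permW w ^ r := by
  show permW (List.replicate r w).flatten = _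
  induction r with
  | zero => rfl
  | succ r ih => rw [List.replicate_succ, List.flatten_cons, permW_append, ih, pow_succ']

/-- The sequence of the normalised brackets modulo `p ^ a`. -/
noncomputable def fam (p a : ℕ) (O : Outer m) (w v : Fin k → List (Letter m)) :
    (Fin k → ℕ) → LL p a :=
  fun n => red p a (dia O (multiW w v (fun i => (n i : ℤ)))).fPoly

theorem cast_add_single (n : Fin k → ℕ) (i : Fin k) (t : ℕ) :
    (fun j => (((n + Pi.single i t : Fin k → ℕ) j : ℕ) : ℤ)) =
      Function.update (fun j => (n j : ℤ)) i (n i + t) := by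
  funext j
  by_cases hj : j = i
  · subst hj
    rw [Function.update_self, Pi.add_apply, Pi.single_eq_same]
    push_cast
    rfl
  · rw [Function.update_of_ne hj, Pi.add_apply, Pi.single_eq_of_ne hj]
    simp

/-- **The recurrences.** -/
theorem rec_dir (hm : 0 < m) (O : Outer m) (w v : Fin k → List (Letter m)) (i : Fin k) :
    ∃ Q : (ℤ[T;T⁻¹])[X], Q.Monic ∧
      ∀ p a, aeval (Es (LL p a) i) (Q.map (red p a)) (fam p a O w v) = 0 := by
  classical
  set r : ℕ := orderOf (permW (w i)) with hr
  have hr0 : 0 < r := orderOf_pos _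
  have hpure : IsPure (powW (w i) (r : ℤ)) := by
    unfold IsPure
    rw [permW_pow, hr, pow_orderOf_eq_one]
  set W := powL (toN (w i)) (r : ℤ) with hW
  have hWlt : ∀ x ∈ W, x.2 + 1 < m := powL_lt (toN_lt _) _
  have hWp : permL W = 1 := by
    rw [hW, ← toN_pow]
    exact permL_of_pure hpure
  choose P hP1 hP2 hP3 hP4 using fun up : Fin m → Bool => rec_pure hm W hWlt hWp up
  set PP : (ℤ[T;T⁻¹])[X] := ∏ up, P up with hPP
  have hPPm : PP.Monic := Polynomial.monic_prod_of_monic _ _ (fun up _ => hP1 up)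
  have hXr : (Polynomial.X ^ r - 1 : (ℤ[T;T⁻¹])[X]).Monic := by
    have := Polynomial.monic_X_pow_sub_C (1 : ℤ[T;T⁻¹]) hr0.ne'
    rwa [map_one] at this
  have hXd : (Polynomial.X ^ r - 1 : (ℤ[T;T⁻¹])[X]).natDegree = r := by
    have := Polynomial.natDegree_X_pow_sub_C (n := r) (r := (1 : ℤ[T;T⁻¹]))
    rwa [map_one] at this
  refine ⟨PP.comp (Polynomial.X ^ r - 1), hPPm.comp hXr (by rw [hXd]; exact hr0.ne'), fun p a => ?_⟩
  funext n
  obtain ⟨O', post, hpost, hline⟩ := line_poly O w v (fun j => (n j : ℤ)) i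
  set F : ℤ → ℤ[T;T⁻¹] := fun q => ff O' (powL W q ++ (powL (toN (w i)) (n i) ++ post)) with hF
  have hsv : ∀ x ∈ powL (toN (w i)) (n i) ++ post, x.2 + 1 < m := by
    intro x hx
    rcases List.mem_append.1 hx with h | h
    · exact powL_lt (toN_lt _) _ x h
    · exact hpost x h
  have hF0 : aeval (Dl ℤ[T;T⁻¹]) PP F = 0 := by
    have h1 : aeval (Dl ℤ[T;T⁻¹]) (P O'.up) F = 0 := hP4 O'.up O' rfl _ hsv
    rw [hPP, ← Finset.prod_erase_mul _ _ (Finset.mem_univ O'.up), map_mul, Module.End.mul_apply, h1,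
      map_zero]
  have hval : ∀ x : ℕ, fam p a O w v (n + Pi.single i (r * x)) = red p a (F x) := by
    intro x
    unfold fam
    rw [cast_add_single, hline]
    apply congrArg (red p a)
    apply ff_congr hm O'
    · intro y hy
      rcases List.mem_append.1 hy with h | h
      · exact powL_lt (toN_lt _) _ y h
      · exact hpost y h
    · intro y hy
      rcases List.mem_append.1 hy with h | h
      · exact powL_lt hWlt _ y h
      · exact hsv y h
    · have h2 : ((n i : ℤ) + ((r * x : ℕ) : ℤ)) = r * x + n i := by push_cast; ring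
      rw [h2, ← List.append_assoc]
      exact Eqv.append (powL_mul (toN_lt _) r (n i) x) (Eqv.refl _)
  have hH : ∀ j x : ℕ, ((Es (LL p a) i ^ r - 1) ^ j) (fam p a O w v) (n + Pi.single i (r * x)) =
      red p a (((Dl ℤ[T;T⁻¹]) ^ j) F x) := by
    intro j
    induction j with
    | zero => intro x; rw [pow_zero, pow_zero]; exact hval x
    | succ j ih =>
      intro x
      rw [pow_succ', pow_succ', Module.End.mul_apply, Module.End.mul_apply, LinearMap.sub_apply,
        Pi.sub_apply, Es_pow, Module.End.one_apply, ih x]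
      have h2 : n + Pi.single i (r * x) + Pi.single i r = n + Pi.single i (r * (x + 1)) := by
        rw [add_assoc, ← Pi.single_add]
        rfl
      rw [h2, ih (x + 1), ← map_sub]
      rfl
  rw [Polynomial.map_comp, Polynomial.aeval_comp, Polynomial.map_sub, Polynomial.map_pow,
    Polynomial.map_X, Polynomial.map_one, map_sub, map_pow, Polynomial.aeval_X, map_one]
  have h5 : ∀ j, ((Es (LL p a) i ^ r - 1) ^ j) (fam p a O w v) n =
      red p a (((Dl ℤ[T;T⁻¹]) ^ j) F 0) := by
    intro j
    have := hH j 0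
    rw [mul_zero, Pi.single_zero, add_zero] at this
    exact this
  have h6 : (PP.map (red p a)).natDegree ≤ PP.natDegree := Polynomial.natDegree_map_le
  rw [Polynomial.aeval_eq_sum_range' (Nat.lt_succ_of_le h6), LinearMap.sum_apply, Finset.sum_apply]
  simp only [LinearMap.smul_apply, Pi.smul_apply, smul_eq_mul, h5, Polynomial.coeff_map, ← map_mul]
  rw [← map_sum]
  have h7 := congrFun hF0 0
  rw [Polynomial.aeval_eq_sum_range, LinearMap.sum_apply, Finset.sum_apply] at h7
  simp only [LinearMap.smul_apply, Pi.smul_apply, smul_eq_mul] at h7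
  rw [h7]
  exact map_zero _

theorem newton_succ {R : Type*} [CommRing R] (n : ℕ) (F : ℤ → R) (x : ℤ) :
    F (x + n) = ∑ j ∈ range n, ((n.choose (j + 1) : ℕ) : R) * ((Dl R) ^ (j + 1)) F x + F x := by
  rw [newton n F x, Finset.sum_range_succ']
  simp

/-- one step of the interpolation -/
theorem step {p : ℕ} (hp : p.Prime) {a e : ℕ} (hae : a ≤ e + 1) (hm : 0 < m) (O : Outer m)
    (w v : Fin k → List (Letter m)) (x : Fin k → ℤ) (i : Fin k) (hpure : IsPure (w i)) :
    (red p a (T 1 + 1)) ^ (p ^ (e + 1 - a) - m.factorial) ∣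
      red p a (dia O (multiW w v (Function.update x i (x i + p ^ e)))).fPoly -
        red p a (dia O (multiW w v x)).fPoly := by
  obtain ⟨O', post, hpost, hline⟩ := line_poly O w v x i
  obtain ⟨P, hP1, hP2, hP3, hP4⟩ := rec_pure hm (toN (w i)) (toN_lt _) (permL_of_pure hpure) O'.up
  have hrec := hP4 O' rfl post hpost
  set F : ℤ → ℤ[T;T⁻¹] := fun q => ff O' (powL (toN (w i)) q ++ post) with hF
  have h1 : (dia O (multiW w v x)).fPoly = F (x i) := by
    have := hline (x i)
    rwa [Function.update_eq_self] at this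
  have h2 := newton_succ (p ^ e) F (x i)
  rw [hline, h1]
  have h3 : ff O' (powL (toN (w i)) (x i + p ^ e) ++ post) = F (x i + ((p ^ e : ℕ) : ℤ)) := by
    push_cast
    rfl
  have h7 : ∀ y z : ℤ[T;T⁻¹], red p a (y + z) - red p a z = red p a y := by
    intro y z
    rw [map_add, add_sub_cancel_right]
  rw [h3, h2, h7, map_sum]
  apply Finset.dvd_sum
  intro j _
  rw [map_mul, map_natCast]
  by_cases h4 : p ^ a ∣ (p ^ e).choose (j + 1)
  · obtain ⟨c, hc⟩ := h4
    have h5 : (((p ^ e).choose (j + 1) : ℕ) : LL p a) = 0 := by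
      rw [hc]
      have := red_pow p a
      rw [map_pow, map_natCast] at this
      push_cast
      rw [this, zero_mul]
    rw [h5, zero_mul]
    exact dvd_zero _
  · have h5 : p ^ (e + 1 - a) ≤ j + 1 := by
      rcases Nat.lt_or_ge e a with h | h
      · have : e + 1 - a = 0 := by omega
        rw [this, pow_zero]
        omega
      · exact Nat.le_of_dvd (by omega) (dvd_choose hp h (by omega) h4)
    have h6 := dl_dvd P hP1 hP3 F hrec (j + 1) (x i)
    apply Dvd.dvd.mul_left
    rw [← map_pow]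
    apply _root_.map_dvd
    exact (pow_dvd_pow _ (by omega)).trans h6

end Pool.Agent.H159.AJ
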