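import Mathlib

/-!
# Frobenius and the section operators on Laurent polynomials modulo a prime power
-/

set_option autoImplicit false

namespace Pool.Agent.H159.AJ

open Finset LaurentPolynomial Polynomial

/-- Laurent polynomials modulo `p ^ a` -/
abbrev LL (p a : ℕ) : Type := (ZMod (p ^ a))[T;T⁻¹]

section
variable (p a : ℕ)

/-- the substitution `A ↦ A ^ p` -/
noncomputable def phi : LL p a →+* LL p a :=
  AddMonoidAlgebra.mapDomainRingHom (ZMod (p ^ a)) (AddMonoidHom.mulLeft (p : ℤ))

theorem phi_single (n : ℤ) (x : ZMod (p ^ a)) :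
    phi p a (AddMonoidAlgebra.single n x) = AddMonoidAlgebra.single (p * n) x := by
  unfold phi
  rw [AddMonoidAlgebra.mapDomainRingHom_apply, AddMonoidAlgebra.mapDomain_single]
  rfl

theorem phi_T (n : ℤ) : phi p a (T n) = T (p * n) := phi_single p a n 1

theorem phi_C (x : ZMod (p ^ a)) : phi p a (LaurentPolynomial.C x) = LaurentPolynomial.C x := by
  have := phi_single p a 0 x
  rw [mul_zero] at this
  exact this

/-- the lift of Frobenius to polynomials -/
noncomputable def Phi : (LL p a)[X] →+* (LL p a)[X] :=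
  Polynomial.eval₂RingHom (Polynomial.C.comp (phi p a)) (Polynomial.X ^ p)

theorem Phi_monomial (n : ℕ) (x : LL p a) :
    Phi p a (Polynomial.monomial n x) = Polynomial.monomial (p * n) (phi p a x) := by
  unfold Phi
  rw [Polynomial.coe_eval₂RingHom, Polynomial.eval₂_monomial, RingHom.comp_apply, ← pow_mul,
    Polynomial.C_mul_X_pow_eq_monomial]

variable {p}

theorem frob_L (hp : p.Prime) (x : LL p a) : (p : LL p a) ∣ x ^ p - phi p a x := by
  induction x using LaurentPolynomial.induction_on' with
  | add x y hx hy =>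
    obtain ⟨r, hr⟩ := exists_add_pow_prime_eq hp x y
    rw [hr, map_add]
    have : x ^ p + y ^ p + p * x * y * r - (phi p a x + phi p a y) =
        (x ^ p - phi p a x) + (y ^ p - phi p a y) + p * (x * y * r) := by ring
    rw [this]
    exact dvd_add (dvd_add hx hy) (dvd_mul_right _ _)
  | C_mul_T n c =>
    rw [map_mul, phi_C, phi_T, mul_pow, T_pow, ← map_pow, ← sub_mul, ← map_sub]
    apply Dvd.dvd.mul_right
    have h : (p : ZMod (p ^ a)) ∣ c ^ p - c := by
      have : NeZero (p ^ a) := ⟨pow_ne_zero _ hp.ne_zero⟩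
      have : Fact p.Prime := ⟨hp⟩
      obtain ⟨z, rfl⟩ := ZMod.intCast_surjective c
      have h1 : (p : ℤ) ∣ z ^ p - z := by
        rw [← ZMod.intCast_zmod_eq_zero_iff_dvd]
        push_cast
        rw [ZMod.pow_card, sub_self]
      obtain ⟨y, hy⟩ := h1
      refine ⟨(y : ZMod (p ^ a)), ?_⟩
      have := congrArg (fun t : ℤ => (t : ZMod (p ^ a))) hy
      push_cast at this
      exact this
    obtain ⟨y, hy⟩ := h
    rw [hy, map_mul, map_natCast]
    exact dvd_mul_right _ _

theorem frob_B (hp : p.Prime) (Q : (LL p a)[X]) : (p : (LL p a)[X]) ∣ Q ^ p - Phi p a Q := by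
  induction Q using Polynomial.induction_on' with
  | add x y hx hy =>
    obtain ⟨r, hr⟩ := exists_add_pow_prime_eq hp x y
    rw [hr, map_add]
    have : x ^ p + y ^ p + p * x * y * r - (Phi p a x + Phi p a y) =
        (x ^ p - Phi p a x) + (y ^ p - Phi p a y) + p * (x * y * r) := by ring
    rw [this]
    exact dvd_add (dvd_add hx hy) (dvd_mul_right _ _)
  | monomial n c =>
    rw [Phi_monomial, Polynomial.monomial_pow, mul_comm n p, ← map_sub]
    obtain ⟨y, hy⟩ := frob_L a hp c
    rw [hy]
    refine ⟨Polynomial.monomial (p * n) y, ?_⟩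
    rw [← nsmul_eq_mul, ← nsmul_eq_mul, map_nsmul]

/-- the key identity: `G ^ p = Φ G` for `G = Q ^ (p ^ (a - 1))` -/
theorem frob_key (hp : p.Prime) (ha : 0 < a) (Q : (LL p a)[X]) :
    (Q ^ p ^ (a - 1)) ^ p = Phi p a (Q ^ p ^ (a - 1)) := by
  have h1 := dvd_sub_pow_of_dvd_sub (frob_B a hp Q) (a - 1)
  rw [Nat.sub_add_cancel ha] at h1
  have h2 : ((p : (LL p a)[X])) ^ a = 0 := by
    have : ((p ^ a : ℕ) : (LL p a)[X]) = 0 := by
      have h3 : ((p ^ a : ℕ) : ZMod (p ^ a)) = 0 := ZMod.natCast_self _
      have h4 : ((p ^ a : ℕ) : (LL p a)[X]) =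
          Polynomial.C (LaurentPolynomial.C ((p ^ a : ℕ) : ZMod (p ^ a))) := by
        rw [map_natCast, map_natCast]
      rw [h4, h3, map_zero, map_zero]
    rw [← this]
    push_cast
    rfl
  rw [h2, zero_dvd_iff, sub_eq_zero] at h1
  rw [map_pow, ← h1, ← pow_mul, ← pow_mul, mul_comm]

end

/-! ### the section operators -/

section
variable (p a : ℕ)

/-- the coefficients of the exponents `p j + s` -/
noncomputable def lam (hp : 0 < p) (s : ℤ) : LL p a →+ LL p a where
  toFun x := AddMonoidAlgebra.ofCoeff (x.coeff.comapDomain (fun j : ℤ => p * j + s) (by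
    intro i _ j _ h
    have h0 : (p : ℤ) ≠ 0 := by exact_mod_cast hp.ne'
    exact mul_left_cancel₀ h0 (add_right_cancel h)))
  map_zero' := by
    ext j
    simp
  map_add' x y := by
    ext j
    rfl

theorem lam_coeff (hp : 0 < p) (s : ℤ) (x : LL p a) (j : ℤ) :
    (lam p a hp s x).coeff j = x.coeff (p * j + s) := rfl

theorem lam_mul (hp : 0 < p) (s : ℤ) (y x : LL p a) :
    lam p a hp s (phi p a y * x) = y * lam p a hp s x := by
  induction y using LaurentPolynomial.induction_on' with
  | add y z hy hz => rw [map_add, add_mul, add_mul, map_add, hy, hz]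
  | C_mul_T n c =>
    rw [← LaurentPolynomial.single_eq_C_mul_T, phi_single]
    ext j
    rw [lam_coeff]
    have h0 : (p : ℤ) ≠ 0 := by exact_mod_cast hp.ne'
    rw [AddMonoidAlgebra.coeff_single_mul_eq_mul_coeff (m₂ := (p : ℤ) * (j - n) + s) (by
      intro m' _
      constructor
      · intro h; linear_combination h
      · intro h; rw [h]; ring),
      AddMonoidAlgebra.coeff_single_mul_eq_mul_coeff (m₂ := j - n) (by
      intro m' _
      constructor
      · intro h; linear_combination h
      · intro h; rw [h]; ring), lam_coeff]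

end

end Pool.Agent.H159.AJ
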