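import Pool.Agent.H159.AJ.Ker

/-!
# Closed automatic sets: a coset or a power saving
-/

set_option autoImplicit false

namespace Pool.Agent.H159.AJ

open Finset

section
variable {p k : ℕ}

open Classical in
/-- the number of elements in a box -/
noncomputable def cnt (k : ℕ) (K : Set (Fin k → ℕ)) (X : ℕ) : ℕ :=
  ((Fintype.piFinset (fun _ : Fin k => range X)).filter (· ∈ K)).card

theorem cnt_le (K : Set (Fin k → ℕ)) {X Y : ℕ} (h : X ≤ Y) : cnt k K X ≤ cnt k K Y := by
  classical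
  unfold cnt
  apply Finset.card_le_card
  intro n hn
  rw [Finset.mem_filter, Fintype.mem_piFinset] at hn ⊢
  exact ⟨fun i => Finset.mem_range.2 ((Finset.mem_range.1 (hn.1 i)).trans_le h), hn.2⟩

theorem cnt_eq_ncard (K : Set (Fin k → ℕ)) (X : ℕ) :
    cnt k K X = {n : Fin k → ℕ | (∀ i, n i < X) ∧ n ∈ K}.ncard := by
  classical
  unfold cnt
  rw [← Set.ncard_coe_finset]
  congr 1
  ext n
  simp

/-- splitting a box into residue classes -/
theorem cnt_split (K : Set (Fin k → ℕ)) {b : ℕ} (hb : 0 < b) (X : ℕ) :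
    cnt k K (b * X) = ∑ r ∈ Fintype.piFinset (fun _ : Fin k => range b),
      cnt k {n | (fun i => b * n i + r i) ∈ K} X := by
  classical
  unfold cnt
  rw [← Finset.card_sigma]
  symm
  refine Finset.card_bij (fun s _ => fun i => b * s.2 i + s.1 i) ?_ ?_ ?_
  · rintro ⟨r, n⟩ h
    rw [Finset.mem_sigma, Finset.mem_filter, Fintype.mem_piFinset, Fintype.mem_piFinset] at h
    rw [Finset.mem_filter, Fintype.mem_piFinset]
    refine ⟨fun i => ?_, h.2.2⟩
    have h1 := Finset.mem_range.1 (h.1 i)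
    have h2 := Finset.mem_range.1 (h.2.1 i)
    rw [Finset.mem_range]
    calc b * n i + r i < b * n i + b := by
          simp only at h1 ⊢
          omega
      _ = b * (n i + 1) := by ring
      _ ≤ b * X := Nat.mul_le_mul_left _ h2
  · rintro ⟨r, n⟩ h ⟨r', n'⟩ h' heq
    rw [Finset.mem_sigma, Fintype.mem_piFinset] at h h'
    have h1 : r = r' := by
      funext i
      have h2 := congrArg (· % b) (congrFun heq i)
      have h3 := Finset.mem_range.1 (h.1 i)
      have h4 := Finset.mem_range.1 (h'.1 i)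
      simp only [Nat.mul_add_mod] at h2
      rwa [Nat.mod_eq_of_lt h3, Nat.mod_eq_of_lt h4] at h2
    subst h1
    have h2 : n = n' := by
      funext i
      have h3 := congrFun heq i
      simp only at h3
      have h4 : b * n i = b * n' i := by omega
      exact Nat.eq_of_mul_eq_mul_left hb h4
    rw [h2]
  · intro n hn
    rw [Finset.mem_filter, Fintype.mem_piFinset] at hn
    refine ⟨⟨fun i => n i % b, fun i => n i / b⟩, ?_, ?_⟩
    · rw [Finset.mem_sigma, Finset.mem_filter, Fintype.mem_piFinset, Fintype.mem_piFinset]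
      refine ⟨fun i => Finset.mem_range.2 (Nat.mod_lt _ hb), fun i => Finset.mem_range.2 ?_, ?_⟩
      · exact Nat.div_lt_of_lt_mul (Finset.mem_range.1 (hn.1 i))
      · show (fun i => b * (n i / b) + n i % b) ∈ K
        have : (fun i => b * (n i / b) + n i % b) = n := by
          funext i
          exact Nat.div_add_mod _ _
        rw [this]
        exact hn.2
    · funext i
      exact Nat.div_add_mod _ _

theorem kernel_kernel {E K : Set (Fin k → ℕ)} (hK : K ∈ setKernel p E) (t : ℕ) {r : Fin k → ℕ}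
    (hr : ∀ i, r i < p ^ t) : {n | (fun i => p ^ t * n i + r i) ∈ K} ∈ setKernel p E := by
  obtain ⟨e, r', hr', rfl⟩ := hK
  refine ⟨e + t, fun i => p ^ e * r i + r' i, fun i => ?_, ?_⟩
  · calc p ^ e * r i + r' i < p ^ e * r i + p ^ e := by have := hr' i; omega
      _ = p ^ e * (r i + 1) := by ring
      _ ≤ p ^ e * p ^ t := Nat.mul_le_mul_left _ (hr i)
      _ = p ^ (e + t) := (pow_add _ _ _).symm
  · ext n
    show (fun i => p ^ e * (p ^ t * n i + r i) + r' i) ∈ E ↔
      (fun i => p ^ (e + t) * n i + (p ^ e * r i + r' i)) ∈ E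
    have : (fun i => p ^ e * (p ^ t * n i + r i) + r' i) =
        (fun i => p ^ (e + t) * n i + (p ^ e * r i + r' i)) := by
      funext i
      rw [pow_add]
      ring
    rw [this]

/-- all elements of the kernel omit a residue class modulo a common power -/
theorem omit_class (hp : 2 ≤ p) {E : Set (Fin k → ℕ)} (hfin : (setKernel p E).Finite)
    (hclosed : ∀ n, n ∉ E → ∃ e : ℕ, ∀ q : Fin k → ℕ, n + (fun i => p ^ e * q i) ∉ E)
    (hno : ∀ (e : ℕ) (x : Fin k → ℕ), ∃ q : Fin k → ℕ, x + (fun i => p ^ e * q i) ∉ E) :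
    ∃ t : ℕ, 0 < t ∧ ∀ K ∈ setKernel p E, ∃ r : Fin k → ℕ, (∀ i, r i < p ^ t) ∧
      {n : Fin k → ℕ | (fun i => p ^ t * n i + r i) ∈ K} = ∅ := by
  classical
  have h1 : ∀ K ∈ setKernel p E, ∃ t : ℕ, ∀ t' ≥ t, ∃ r : Fin k → ℕ, (∀ i, r i < p ^ t') ∧
      {n : Fin k → ℕ | (fun i => p ^ t' * n i + r i) ∈ K} = ∅ := by
    rintro K ⟨e, r', hr', rfl⟩
    obtain ⟨n, hn⟩ := hno e r'
    obtain ⟨e1, he1⟩ := hclosed _ hn
    refine ⟨e1 + ∑ i, n i, fun t' ht' => ⟨n, fun i => ?_, ?_⟩⟩
    · have h2 : n i ≤ ∑ i, n i := Finset.single_le_sum (fun _ _ => Nat.zero_le _) (Finset.mem_univ i)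
      have h3 : n i ≤ t' := by omega
      exact h3.trans_lt (Nat.lt_pow_self (by omega))
    · ext q
      simp only [Set.mem_ofPred_eq, Set.mem_empty_iff_false, iff_false]
      have h2 := he1 (fun i => p ^ (e + (t' - e1)) * q i)
      intro h3
      apply h2
      have h4 : r' + (fun i => p ^ e * n i) + (fun i => p ^ e1 * (p ^ (e + (t' - e1)) * q i)) =
          (fun i => p ^ e * (p ^ t' * q i + n i) + r' i) := by
        funext i
        simp only [Pi.add_apply]
        have h5 : p ^ e1 * (p ^ (e + (t' - e1)) * q i) = p ^ e * (p ^ t' * q i) := by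
          rw [← mul_assoc, ← mul_assoc, ← pow_add, ← pow_add]
          congr 2
          omega
        rw [h5]
        ring
      rw [h4]
      exact h3
  choose! t ht using h1
  refine ⟨1 + ∑ K ∈ hfin.toFinset, t K, by omega, fun K hK => ht K hK _ ?_⟩
  have h2 : t K ≤ ∑ K ∈ hfin.toFinset, t K :=
    Finset.single_le_sum (fun _ _ => Nat.zero_le _) (hfin.mem_toFinset.2 hK)
  show t K ≤ _
  omega

theorem cnt_pow_le {E : Set (Fin k → ℕ)} (hp : 2 ≤ p) {t : ℕ}
    (ht : ∀ K ∈ setKernel p E, ∃ r : Fin k → ℕ, (∀ i, r i < p ^ t) ∧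
      {n : Fin k → ℕ | (fun i => p ^ t * n i + r i) ∈ K} = ∅) (j : ℕ) :
    ∀ K ∈ setKernel p E, cnt k K ((p ^ t) ^ j) ≤ ((p ^ t) ^ k - 1) ^ j := by
  classical
  have hb : 0 < p ^ t := pow_pos (by omega) t
  induction j with
  | zero =>
    intro K _
    rw [pow_zero, pow_zero]
    unfold cnt
    refine (Finset.card_filter_le _ _).trans ?_
    rw [Fintype.card_piFinset]
    simp
  | succ j ih =>
    intro K hK
    obtain ⟨r0, hr0, hr0'⟩ := ht K hK
    rw [pow_succ', cnt_split K hb]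
    have hmem : r0 ∈ Fintype.piFinset (fun _ : Fin k => range (p ^ t)) := by
      rw [Fintype.mem_piFinset]
      exact fun i => Finset.mem_range.2 (hr0 i)
    rw [← Finset.add_sum_erase _ _ hmem, hr0']
    have h0 : cnt k (∅ : Set (Fin k → ℕ)) ((p ^ t) ^ j) = 0 := by
      unfold cnt
      simp
    rw [h0, zero_add]
    calc ∑ r ∈ (Fintype.piFinset (fun _ : Fin k => range (p ^ t))).erase r0,
          cnt k {n | (fun i => p ^ t * n i + r i) ∈ K} ((p ^ t) ^ j)
        ≤ ∑ _r ∈ (Fintype.piFinset (fun _ : Fin k => range (p ^ t))).erase r0,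
          ((p ^ t) ^ k - 1) ^ j := by
          refine Finset.sum_le_sum fun r hr => ih _ (kernel_kernel hK t fun i => ?_)
          have := Fintype.mem_piFinset.1 (Finset.mem_of_mem_erase hr) i
          exact Finset.mem_range.1 this
      _ = ((p ^ t) ^ k - 1) ^ (j + 1) := by
          rw [Finset.sum_const, Finset.card_erase_of_mem hmem, Fintype.card_piFinset]
          simp only [Finset.card_range, Finset.prod_const, Finset.card_univ, Fintype.card_fin,
            smul_eq_mul]
          rw [pow_succ']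

/-- **A closed automatic set contains a coset or is small.** -/
theorem gap (hp : 2 ≤ p) {E : Set (Fin k → ℕ)} (hfin : (setKernel p E).Finite)
    (hclosed : ∀ n, n ∉ E → ∃ e : ℕ, ∀ q : Fin k → ℕ, n + (fun i => p ^ e * q i) ∉ E) :
    (∃ (e : ℕ) (x : Fin k → ℕ), ∀ q : Fin k → ℕ, x + (fun i => p ^ e * q i) ∈ E) ∨
    ∃ C δ : ℝ, 0 < δ ∧ ∀ X : ℕ, 1 ≤ X →
      ({n : Fin k → ℕ | (∀ i, n i < X) ∧ n ∈ E}.ncard : ℝ) ≤ C * (X : ℝ) ^ ((k : ℝ) - δ) := by
  classical
  by_cases hcos : ∃ (e : ℕ) (x : Fin k → ℕ), ∀ q : Fin k → ℕ, x + (fun i => p ^ e * q i) ∈ E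
  · exact Or.inl hcos
  right
  push Not at hcos
  obtain ⟨t, ht0, ht⟩ := omit_class hp hfin hclosed hcos
  have hE : E ∈ setKernel p E := by
    refine ⟨0, fun _ => 0, fun _ => by simp, ?_⟩
    ext n
    simp
  set b := p ^ t with hb
  have hb2 : 2 ≤ b := by
    calc 2 ≤ p := hp
      _ = p ^ 1 := (pow_one p).symm
      _ ≤ p ^ t := Nat.pow_le_pow_right (by omega) ht0
  have hcnt : ∀ j, cnt k E (b ^ j) ≤ (b ^ k - 1) ^ j := fun j => cnt_pow_le hp ht j E hE
  rcases Nat.eq_zero_or_pos k with hk | hk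
  · -- no coordinates
    subst hk
    refine ⟨1, 1, one_pos, fun X _ => ?_⟩
    have h1 : cnt 0 E X ≤ 0 := by
      have h2 := hcnt (X + 1)
      rw [pow_zero, Nat.sub_self, zero_pow (by omega)] at h2
      refine (cnt_le E ?_).trans h2
      exact (Nat.lt_pow_self (by omega)).le.trans (Nat.pow_le_pow_right (by omega) (by omega))
    rw [← cnt_eq_ncard, Nat.le_zero.1 h1]
    push_cast
    positivity
  · have hbk : b ≤ b ^ k := by
      calc b = b ^ 1 := (pow_one b).symm
        _ ≤ b ^ k := Nat.pow_le_pow_right (by omega) hk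
    have hb1 : (1 : ℝ) < b := by exact_mod_cast (by omega : 1 < b)
    have hlog : 0 < Real.log b := Real.log_pos hb1
    have hM1 : (1 : ℝ) ≤ ((b ^ k - 1 : ℕ) : ℝ) := by
      exact_mod_cast (by omega : 1 ≤ b ^ k - 1)
    set κ : ℝ := Real.log ((b ^ k - 1 : ℕ) : ℝ) / Real.log b with hκ
    have hκ0 : 0 ≤ κ := div_nonneg (Real.log_nonneg hM1) hlog.le
    have hκk : κ < k := by
      rw [hκ, div_lt_iff₀ hlog]
      have h1 : Real.log ((b ^ k - 1 : ℕ) : ℝ) < Real.log ((b : ℝ) ^ k) := by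
        apply Real.log_lt_log (by linarith)
        have : b ^ k - 1 < b ^ k := by omega
        exact_mod_cast this
      rwa [Real.log_pow] at h1
    have hpow : ∀ j : ℕ, (((b ^ k - 1) ^ j : ℕ) : ℝ) = ((b : ℝ) ^ j) ^ κ := by
      intro j
      have h1 : (b : ℝ) ^ κ = ((b ^ k - 1 : ℕ) : ℝ) := by
        rw [Real.rpow_def_of_pos (by linarith), hκ, mul_div_cancel₀ _ hlog.ne',
          Real.exp_log (by linarith)]
      rw [← Real.rpow_natCast, ← Real.rpow_mul (by linarith), mul_comm, Real.rpow_mul (by linarith),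
        h1, Real.rpow_natCast]
      push_cast
      rfl
    refine ⟨(b : ℝ) ^ κ, k - κ, by linarith, fun X hX => ?_⟩
    rw [← cnt_eq_ncard, sub_sub_cancel]
    set j := Nat.log b X with hj
    have h1 : X ≤ b ^ (j + 1) := (Nat.lt_pow_succ_log_self (by omega) X).le
    have h2 : b ^ j ≤ X := Nat.pow_log_le_self b (by omega)
    have hX0 : (0 : ℝ) ≤ X := Nat.cast_nonneg _
    calc (cnt k E X : ℝ) ≤ (((b ^ k - 1) ^ (j + 1) : ℕ) : ℝ) := by
          exact_mod_cast (cnt_le E h1).trans (hcnt (j + 1))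
      _ = ((b : ℝ) ^ (j + 1)) ^ κ := hpow (j + 1)
      _ = (b : ℝ) ^ κ * ((b : ℝ) ^ j) ^ κ := by
          rw [pow_succ', Real.mul_rpow (by positivity) (by positivity)]
      _ ≤ (b : ℝ) ^ κ * (X : ℝ) ^ κ := by
          gcongr
          exact_mod_cast h2

end

end Pool.Agent.H159.AJ
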