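import Pool.Agent.H159.AJ.Sec

/-!
# Finite kernels
-/

set_option autoImplicit false

namespace Pool.Agent.H159.AJ

open Finset LaurentPolynomial Polynomial

/-- The `b`-kernel of an array `c(n, j)`, `n ∈ ℕ^k`, `j ∈ ℤ`: the arrays `c(b^e n + r, b^e j + s)` with `e ≥ 0`,
`0 ≤ r_i < b^e` and `0 ≤ s < b^e`. -/
def arrayKernel {k : ℕ} {α : Type*} (b : ℕ) (c : (Fin k → ℕ) → ℤ → α) : Set ((Fin k → ℕ) → ℤ → α) :=
  {c' | ∃ (e : ℕ) (r : Fin k → ℕ) (s : ℤ), (∀ i, r i < b ^ e) ∧ 0 ≤ s ∧ s < b ^ e ∧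
    c' = fun n j => c (fun i => b ^ e * n i + r i) (b ^ e * j + s)}

/-- The `b`-kernel of a set `S ⊆ ℕ^k`: the sets `{n | b^e n + r ∈ S}` with `e ≥ 0` and `0 ≤ r_i < b^e`. -/
def setKernel {k : ℕ} (b : ℕ) (S : Set (Fin k → ℕ)) : Set (Set (Fin k → ℕ)) :=
  {S' | ∃ (e : ℕ) (r : Fin k → ℕ), (∀ i, r i < b ^ e) ∧ S' = {n | (fun i => b ^ e * n i + r i) ∈ S}}

section Bound
variable {k : ℕ} {L : Type*} [CommRing L]

theorem exists_exp_bound (x : L[T;T⁻¹]) : ∃ M : ℕ, ∀ j, x.coeff j ≠ 0 → |j| ≤ M := by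
  refine ⟨∑ j ∈ x.coeff.support, j.natAbs, fun j hj => ?_⟩
  have h1 : j ∈ x.coeff.support := Finsupp.mem_support_iff.2 hj
  have h2 : j.natAbs ≤ ∑ j ∈ x.coeff.support, j.natAbs :=
    Finset.single_le_sum (f := fun j : ℤ => j.natAbs) (fun _ _ => Nat.zero_le _) h1
  have h3 : |j| = (j.natAbs : ℤ) := (Int.natCast_natAbs j).symm
  rw [h3]
  exact_mod_cast h2

theorem coeff_mul_ne {x y : L[T;T⁻¹]} {j : ℤ} (h : (x * y).coeff j ≠ 0) :
    ∃ j1 j2, x.coeff j1 ≠ 0 ∧ y.coeff j2 ≠ 0 ∧ j1 + j2 = j := by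
  classical
  have h1 := AddMonoidAlgebra.support_coeff_mul_subset x y (Finsupp.mem_support_iff.2 h)
  obtain ⟨j1, hj1, j2, hj2, h3⟩ := Finset.mem_add.1 h1
  exact ⟨j1, j2, Finsupp.mem_support_iff.1 hj1, Finsupp.mem_support_iff.1 hj2, h3⟩

end Bound

section
variable (p a : ℕ) {k : ℕ}

theorem exists_Cls {G : Fin k → (LL p a)[X]} (hG : ∀ i, (G i).Monic) {f : (Fin k → ℕ) → LL p a}
    (hf : ∀ i, aeval (Es (LL p a) i) (G i) f = 0) :
    ∃ D M : ℕ, M * k + 1 ≤ D ∧ f ∈ Cls p a G D M := by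
  classical
  -- a bound for the exponents in the coefficients
  have h1 : ∃ M : ℕ, ∀ i u j, ((G i).coeff u).coeff j ≠ 0 → |j| ≤ M := by
    choose m hm using fun (i : Fin k) (u : ℕ) => exists_exp_bound ((G i).coeff u)
    refine ⟨∑ i, ∑ u ∈ Finset.range ((G i).natDegree + 1), m i u, fun i u j hj => ?_⟩
    refine (hm i u j hj).trans ?_
    have hu : u < (G i).natDegree + 1 := by
      by_contra h
      have h2 : (G i).coeff u = 0 := Polynomial.coeff_eq_zero_of_natDegree_lt (by omega)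
      rw [h2] at hj
      exact hj rfl
    have h3 : m i u ≤ ∑ u ∈ Finset.range ((G i).natDegree + 1), m i u :=
      Finset.single_le_sum (f := fun u => m i u) (fun _ _ => Nat.zero_le _) (Finset.mem_range.2 hu)
    have h4 : ∑ u ∈ Finset.range ((G i).natDegree + 1), m i u ≤
        ∑ i, ∑ u ∈ Finset.range ((G i).natDegree + 1), m i u :=
      Finset.single_le_sum (f := fun i => ∑ u ∈ Finset.range ((G i).natDegree + 1), m i u)
        (fun _ _ => Nat.zero_le _) (Finset.mem_univ i)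
    exact_mod_cast h3.trans h4
  obtain ⟨M, hM⟩ := h1
  -- a bound for the exponents in the box
  have h2 : ∃ D : ℕ, M * k + 1 ≤ D ∧ ∀ n : Fin k → ℕ, (∀ i, n i < (G i).natDegree) →
      ∀ j, (f n).coeff j ≠ 0 → |j| ≤ D := by
    choose m hm using fun (n : (i : Fin k) → Fin (G i).natDegree) =>
      exists_exp_bound (f (fun i => (n i : ℕ)))
    refine ⟨M * k + 1 + ∑ n, m n, by omega, fun n hn j hj => ?_⟩
    refine (hm (fun i => ⟨n i, hn i⟩) j hj).trans ?_
    have h3 : m (fun i => ⟨n i, hn i⟩) ≤ ∑ n, m n :=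
      Finset.single_le_sum (f := m) (fun _ _ => Nat.zero_le _) (Finset.mem_univ _)
    exact_mod_cast h3.trans (Nat.le_add_left _ _)
  obtain ⟨D, hDk, hD⟩ := h2
  refine ⟨D, M, hDk, hf, ?_⟩
  have key : ∀ S : ℕ, ∀ n : Fin k → ℕ, ∑ i, n i = S → ∀ j, (f n).coeff j ≠ 0 →
      |j| ≤ D + M * (S : ℤ) := by
    intro S
    induction S using Nat.strong_induction_on with
    | _ S ih =>
      intro n hn j hj
      by_cases hbox : ∀ i, n i < (G i).natDegree
      · exact (hD n hbox j hj).trans (by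
          have : (0 : ℤ) ≤ M * (S : ℤ) := by positivity
          linarith)
      push Not at hbox
      obtain ⟨i, hi⟩ := hbox
      set N := (G i).natDegree with hN
      set n' : Fin k → ℕ := n - Pi.single i N with hn'
      have hnn : n' + Pi.single i N = n := by
        funext j
        rw [hn', Pi.add_apply, Pi.sub_apply]
        by_cases hj : j = i
        · subst hj; rw [Pi.single_eq_same]; omega
        · rw [Pi.single_eq_of_ne hj]; omega
      have h1 := congrFun (hf i) n'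
      rw [aeval_Es_apply, Polynomial.sum_over_range _ (by simp), Finset.sum_range_succ, ← hN,
        hnn] at h1
      have h2 : (G i).coeff N = 1 := by rw [hN]; exact hG i
      rw [h2, one_mul] at h1
      have h3 : f n = - ∑ u ∈ Finset.range N, (G i).coeff u * f (n' + Pi.single i u) :=
        eq_neg_of_add_eq_zero_right h1
      have h4 : ∃ u ∈ Finset.range N, ((G i).coeff u * f (n' + Pi.single i u)).coeff j ≠ 0 := by
        by_contra hcon
        push Not at hcon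
        apply hj
        rw [h3, AddMonoidAlgebra.coeff_neg, Finsupp.neg_apply, neg_eq_zero,
          AddMonoidAlgebra.coeff_sum, Finsupp.finsetSum_apply]
        exact Finset.sum_eq_zero hcon
      obtain ⟨u, hu, h5⟩ := h4
      obtain ⟨j1, j2, hj1, hj2, hj12⟩ := coeff_mul_ne h5
      rw [Finset.mem_range] at hu
      have h6 : ∑ j, (n' + Pi.single i u : Fin k → ℕ) j < S := by
        rw [← hn, ← hnn]
        simp only [Pi.add_apply, Finset.sum_add_distrib, Finset.sum_pi_single']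
        simp only [Finset.mem_univ, if_true]
        omega
      have h7 := ih _ h6 _ rfl j2 hj2
      have h8 := hM i u j1 hj1
      have h9 : |j| ≤ |j1| + |j2| := by rw [← hj12]; exact abs_add_le _ _
      have h10 : ((∑ j, (n' + Pi.single i u : Fin k → ℕ) j : ℕ) : ℤ) ≤ S - 1 := by omega
      have hM0 : (0 : ℤ) ≤ M := Nat.cast_nonneg _
      have h11 := mul_le_mul_of_nonneg_left h10 hM0
      linarith
  intro n j hj
  have := key _ n rfl j hj
  push_cast at this
  exact this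

variable {p a}

theorem kernel_mem (hp : 0 < p) {G : Fin k → (LL p a)[X]} (hG : ∀ i, (G i) ^ p = Phi p a (G i))
    {D M : ℕ} (hD : M * k + 1 ≤ D) (e : ℕ) : ∀ f ∈ Cls p a G D M, ∀ (r : Fin k → ℕ) (s : ℤ),
    (∀ i, r i < p ^ e) → 0 ≤ s → s < p ^ e → ∃ g ∈ Cls p a G D M, ∀ n j,
      (f (fun i => p ^ e * n i + r i)).coeff (p ^ e * j + s) = (g n).coeff j := by
  induction e with
  | zero =>
    intro f hf r s hr hs hs'
    refine ⟨f, hf, fun n j => ?_⟩
    have h1 : s = 0 := by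
      rw [pow_zero] at hs'
      omega
    have h2 : (fun i => p ^ 0 * n i + r i) = n := by
      funext i
      have := hr i
      rw [pow_zero] at this ⊢
      omega
    rw [h2, h1, pow_zero, one_mul, add_zero]
  | succ e ih =>
    intro f hf r s hr hs hs'
    have hpz : (0 : ℤ) < p := by exact_mod_cast hp
    have h1 := tau_mem p a hp hG hD hf (r := fun i => r i % p) (fun i => Nat.mod_lt _ hp)
      (s := s % p) (Int.emod_nonneg _ hpz.ne') (Int.emod_lt_of_pos _ hpz)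
    obtain ⟨g, hg, h2⟩ := ih _ h1 (fun i => r i / p) (s / p)
      (fun i => Nat.div_lt_of_lt_mul (by have := hr i; rwa [pow_succ'] at this))
      (Int.ediv_nonneg hs hpz.le) (Int.ediv_lt_of_lt_mul hpz (by rwa [pow_succ] at hs'))
    refine ⟨g, hg, fun n j => ?_⟩
    rw [← h2 n j]
    show _ = (lam p a hp (s % p) (f _)).coeff _
    rw [lam_coeff]
    congr 1
    · congr 2
      funext i
      show p ^ (e + 1) * n i + r i = p * (p ^ e * n i + r i / p) + r i % p
      have := Nat.div_add_mod (r i) p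
      rw [pow_succ']
      linarith [mul_add p (p ^ e * n i) (r i / p), mul_assoc p (p ^ e) (n i)]
    · have := Int.mul_ediv_add_emod s p
      rw [pow_succ]
      linear_combination -this

/-- the recurrences can be replaced by recurrences with `Φ G = G ^ p` -/
theorem exists_Cls' (hp : p.Prime) (ha : 0 < a) {Q : Fin k → (LL p a)[X]} (hQ : ∀ i, (Q i).Monic)
    {f : (Fin k → ℕ) → LL p a} (hf : ∀ i, aeval (Es (LL p a) i) (Q i) f = 0) :
    ∃ (G : Fin k → (LL p a)[X]) (D M : ℕ), (∀ i, (G i).Monic) ∧ (∀ i, (G i) ^ p = Phi p a (G i)) ∧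
      M * k + 1 ≤ D ∧ f ∈ Cls p a G D M := by
  have hG : ∀ i, (Q i ^ p ^ (a - 1)).Monic := fun i => (hQ i).pow _
  obtain ⟨D, M, h1, h2⟩ := exists_Cls p a hG (f := f) (fun i => by
    obtain ⟨q, hq⟩ : ∃ q, p ^ (a - 1) = q + 1 := ⟨p ^ (a - 1) - 1, by
      have := pow_pos hp.pos (a - 1); omega⟩
    rw [hq, pow_succ, map_mul, Module.End.mul_apply, hf i, map_zero])
  exact ⟨_, D, M, hG, fun i => frob_key a hp ha (Q i), h1, h2⟩

/-- **The coefficients form a `p`-automatic array.** -/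
theorem array_finite (hp : p.Prime) (ha : 0 < a) {Q : Fin k → (LL p a)[X]}
    (hQ : ∀ i, (Q i).Monic) {f : (Fin k → ℕ) → LL p a}
    (hf : ∀ i, aeval (Es (LL p a) i) (Q i) f = 0) :
    (arrayKernel p (fun n j => (f n).coeff j)).Finite := by
  obtain ⟨G, D, M, hG, hG', hD, hfC⟩ := exists_Cls' hp ha hQ hf
  refine ((Cls_finite p a hp.pos hG D M).image
    (fun g => fun (n : Fin k → ℕ) (j : ℤ) => (g n).coeff j)).subset ?_
  rintro c' ⟨e, r, s, hr, hs, hs', rfl⟩
  obtain ⟨g, hg, h⟩ := kernel_mem hp.pos hG' hD e f hfC r s hr hs (by exact_mod_cast hs')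
  exact ⟨g, hg, by funext n j; exact (h n j).symm⟩

/-- **The zeros form a `p`-automatic set.** -/
theorem zero_finite (hp : p.Prime) (ha : 0 < a) {Q : Fin k → (LL p a)[X]}
    (hQ : ∀ i, (Q i).Monic) {f : (Fin k → ℕ) → LL p a}
    (hf : ∀ i, aeval (Es (LL p a) i) (Q i) f = 0) :
    (setKernel p {n | f n = 0}).Finite := by
  obtain ⟨G, D, M, hG, hG', hD, hfC⟩ := exists_Cls' hp ha hQ hf
  have hfin := Cls_finite p a hp.pos hG D M
  refine ((hfin.powerset).image (fun H => {n : Fin k → ℕ | ∀ h ∈ H, h n = 0})).subset ?_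
  rintro S' ⟨e, r, hr, rfl⟩
  have hpe : (0 : ℤ) < (p : ℤ) ^ e := pow_pos (by exact_mod_cast hp.pos) e
  have h1 : ∀ s : ℤ, ∃ g : (Fin k → ℕ) → LL p a, 0 ≤ s → s < p ^ e → g ∈ Cls p a G D M ∧ ∀ n j,
      (f (fun i => p ^ e * n i + r i)).coeff (p ^ e * j + s) = (g n).coeff j := by
    intro s
    by_cases hs : 0 ≤ s ∧ s < p ^ e
    · obtain ⟨g, hg, h⟩ := kernel_mem hp.pos hG' hD e f hfC r s hr hs.1 hs.2
      exact ⟨g, fun _ _ => ⟨hg, h⟩⟩
    · exact ⟨0, fun h h' => absurd ⟨h, h'⟩ hs⟩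
  choose g hg using h1
  refine ⟨{h | ∃ s : ℤ, 0 ≤ s ∧ s < p ^ e ∧ h = g s}, ?_, ?_⟩
  · rintro h ⟨s, hs, hs', rfl⟩
    exact (hg s hs hs').1
  · ext n
    simp only [Set.mem_setOf_eq]
    constructor
    · intro h
      ext j
      have hj := Int.mul_ediv_add_emod j ((p : ℤ) ^ e)
      have h2 := (hg (j % (p : ℤ) ^ e) (Int.emod_nonneg _ hpe.ne')
        (Int.emod_lt_of_pos _ hpe)).2 n (j / (p : ℤ) ^ e)
      rw [hj] at h2
      rw [h2, h _ ⟨_, Int.emod_nonneg _ hpe.ne', Int.emod_lt_of_pos _ hpe, rfl⟩]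
      rfl
    · rintro h _ ⟨s, hs, hs', rfl⟩
      ext j
      rw [← (hg s hs hs').2 n j, h]
      rfl

end

end Pool.Agent.H159.AJ
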