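import Pool.Agent.H159.AJ.Fam
import Pool.Agent.H159.AJ.Gap

/-!
# Interpolation, closedness and the gap
-/

set_option autoImplicit false

namespace Pool.Agent.H159.AJ

open Finset LaurentPolynomial Polynomial Pool.Agent.H891R2.Jones Pool.Agent.W639.RB Pool.Agent.Y463.SK

/-- a nonzero Laurent polynomial is not divisible by all powers of `A + 1` -/
theorem krull {R : Type*} [CommRing R] {x : R[T;T⁻¹]} (hx : x ≠ 0) :
    ∃ N : ℕ, ∀ N' ≥ N, ¬ (T 1 + 1 : R[T;T⁻¹]) ^ N' ∣ x := by
  have hnt : Nontrivial R := by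
    by_contra h
    rw [not_nontrivial_iff_subsingleton] at h
    apply hx
    ext j
    exact Subsingleton.elim _ _
  obtain ⟨n, P, hP⟩ := exists_T_pow x
  have hP0 : P ≠ 0 := by
    rintro rfl
    rw [map_zero] at hP
    apply hx
    have h1 : x * T n * T (-n : ℤ) = x := by
      rw [mul_T_assoc, add_neg_cancel, T_zero, mul_one]
    rw [← h1, ← hP, zero_mul]
  refine ⟨P.natDegree + 1, fun N' hN' => ?_⟩
  rintro ⟨y, hy⟩
  obtain ⟨l, Y, hY⟩ := exists_T_pow y
  have h1 : toLaurent (P * Polynomial.X ^ l) =
      toLaurent ((Polynomial.X + 1) ^ N' * (Y * Polynomial.X ^ n)) := by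
    simp only [map_mul, map_pow, map_add, Polynomial.toLaurent_X, map_one, T_pow, mul_one, hP, hY, hy]
    ring
  have h2 := Polynomial.toLaurent_injective h1
  have hco : IsCoprime ((Polynomial.X + 1 : R[X]) ^ N') (Polynomial.X ^ l) := by
    apply IsCoprime.pow
    exact ⟨1, -1, by ring⟩
  have h3 : (Polynomial.X + 1 : R[X]) ^ N' ∣ P := by
    apply hco.dvd_of_dvd_mul_right
    rw [h2]
    exact dvd_mul_right _ _
  obtain ⟨Z, hZ⟩ := h3
  have hmon : ((Polynomial.X + 1 : R[X]) ^ N').Monic := by
    have : (Polynomial.X + Polynomial.C 1 : R[X]).Monic := Polynomial.monic_X_add_C 1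
    rw [map_one] at this
    exact this.pow _
  have hdeg : ((Polynomial.X + 1 : R[X]) ^ N').natDegree = N' := by
    have h4 : (Polynomial.X + 1 : R[X]).Monic := by
      have : (Polynomial.X + Polynomial.C 1 : R[X]).Monic := Polynomial.monic_X_add_C 1
      rwa [map_one] at this
    rw [h4.natDegree_pow]
    have h5 : (Polynomial.X + 1 : R[X]).natDegree = 1 := by
      have := Polynomial.natDegree_X_add_C (1 : R)
      rwa [map_one] at this
    rw [h5, mul_one]
  have hZ0 : Z ≠ 0 := by
    rintro rfl
    rw [mul_zero] at hZ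
    exact hP0 hZ
  have h6 := hmon.natDegree_mul' hZ0
  rw [← hZ, hdeg] at h6
  omega

theorem red_pi (p a : ℕ) : red p a (T 1 + 1) = T 1 + 1 := by
  rw [map_add, map_one]
  congr 1
  refine (AddMonoidAlgebra.mapRingHom_single _ _ _).trans ?_
  rw [map_one]
  rfl

variable {m k : ℕ}

/-- **Interpolation.** -/
theorem interp {p : ℕ} (hp : p.Prime) {a e : ℕ} (hae : a ≤ e + 1) (hm : 0 < m) (O : Outer m)
    (w v : Fin k → List (Letter m)) (hpure : ∀ i, IsPure (w i)) (x q : Fin k → ℤ) :
    (T 1 + 1 : LL p a) ^ (p ^ (e + 1 - a) - m.factorial) ∣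
      red p a (dia O (multiW w v (fun i => x i + p ^ e * q i))).fPoly -
        red p a (dia O (multiW w v x)).fPoly := by
  classical
  set N := p ^ (e + 1 - a) - m.factorial with hN
  set f : (Fin k → ℤ) → LL p a := fun x => red p a (dia O (multiW w v x)).fPoly with hf
  have hstep : ∀ (x : Fin k → ℤ) (i : Fin k),
      (T 1 + 1 : LL p a) ^ N ∣ f (Function.update x i (x i + p ^ e)) - f x := by
    intro x i
    have := step hp hae hm O w v x i (hpure i)
    rwa [red_pi] at this
  have hline : ∀ (x : Fin k → ℤ) (i : Fin k) (t : ℤ),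
      (T 1 + 1 : LL p a) ^ N ∣ f (Function.update x i (x i + p ^ e * t)) - f x := by
    intro x i t
    have hup : ∀ t : ℤ, (T 1 + 1 : LL p a) ^ N ∣
        f (Function.update x i (x i + p ^ e * (t + 1))) - f (Function.update x i (x i + p ^ e * t)) := by
      intro t
      have := hstep (Function.update x i (x i + p ^ e * t)) i
      rw [Function.update_self, Function.update_idem] at this
      have h2 : x i + (p : ℤ) ^ e * (t + 1) = x i + p ^ e * t + p ^ e := by ring
      rw [h2]
      exact this
    induction t using Int.induction_on with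
    | zero =>
      rw [mul_zero, add_zero, Function.update_eq_self, sub_self]
      exact dvd_zero _
    | succ t ih =>
      have := dvd_add (hup t) ih
      rwa [sub_add_sub_cancel] at this
    | pred t ih =>
      have h1 := hup (-(t : ℤ) - 1)
      rw [sub_add_cancel] at h1
      have := dvd_sub ih h1
      rwa [sub_sub_sub_cancel_left] at this
  have hset : ∀ S : Finset (Fin k), (T 1 + 1 : LL p a) ^ N ∣
      f (fun i => if i ∈ S then x i + p ^ e * q i else x i) - f x := by
    intro S
    induction S using Finset.induction_on with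
    | empty => simp
    | insert i S hi ih =>
      have h1 := hline (fun i => if i ∈ S then x i + p ^ e * q i else x i) i (q i)
      have h2 : Function.update (fun i => if i ∈ S then x i + (p : ℤ) ^ e * q i else x i) i
          ((if i ∈ S then x i + (p : ℤ) ^ e * q i else x i) + p ^ e * q i) =
          (fun j => if j ∈ insert i S then x j + (p : ℤ) ^ e * q j else x j) := by
        funext j
        by_cases hj : j = i
        · subst hj
          rw [Function.update_self, if_neg hi, if_pos (Finset.mem_insert_self _ _)]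
        · rw [Function.update_of_ne hj]
          simp only [Finset.mem_insert, hj, false_or]
      rw [h2] at h1
      have := dvd_add h1 ih
      rwa [sub_add_sub_cancel] at this
  have := hset Finset.univ
  simpa using this

theorem exists_large {p : ℕ} (hp : p.Prime) (a M N : ℕ) :
    ∃ e : ℕ, a ≤ e + 1 ∧ N ≤ p ^ (e + 1 - a) - M := by
  refine ⟨a + N + M, by omega, ?_⟩
  have h1 : N + M + 1 < p ^ (N + M + 1) := Nat.lt_pow_self hp.one_lt
  have h2 : a + N + M + 1 - a = N + M + 1 := by omega
  rw [h2]
  omega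

/-- **Closedness in the `p`-adic topology.** -/
theorem closed {p : ℕ} (hp : p.Prime) (a : ℕ) (hm : 0 < m) (O : Outer m)
    (w v : Fin k → List (Letter m)) (hpure : ∀ i, IsPure (w i)) (F : LL p a) (x : Fin k → ℤ)
    (hx : red p a (dia O (multiW w v x)).fPoly ≠ F) :
    ∃ e : ℕ, ∀ q : Fin k → ℤ,
      red p a (dia O (multiW w v (fun i => x i + p ^ e * q i))).fPoly ≠ F := by
  obtain ⟨N, hN⟩ := krull (sub_ne_zero.2 hx)
  obtain ⟨e, hae, he⟩ := exists_large hp a m.factorial N
  refine ⟨e, fun q h => ?_⟩
  have h1 := interp hp hae hm O w v hpure x q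
  rw [h] at h1
  apply hN _ he
  rw [← neg_sub, dvd_neg]
  exact h1

/-- the zeros for all integral parameters -/
theorem all_of_nat {p : ℕ} (hp : p.Prime) (a : ℕ) (hm : 0 < m) (O : Outer m)
    (w v : Fin k → List (Letter m)) (hpure : ∀ i, IsPure (w i)) (F : LL p a) (x : Fin k → ℤ) (e : ℕ)
    (h : ∀ q : Fin k → ℕ, red p a (dia O (multiW w v (fun i => x i + p ^ e * q i))).fPoly = F)
    (q : Fin k → ℤ) : red p a (dia O (multiW w v (fun i => x i + p ^ e * q i))).fPoly = F := by
  by_contra hne
  obtain ⟨e', he'⟩ := closed hp a hm O w v hpure F _ hne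
  -- a representative in `ℕ^k` of `q` modulo `p ^ e'`
  have hp0 : (0 : ℤ) < (p : ℤ) ^ e' := pow_pos (by exact_mod_cast hp.pos) e'
  have h1 := he' (fun i => - p ^ e * (q i / (p : ℤ) ^ e'))
  apply h1
  have h2 := h (fun i => (q i % (p : ℤ) ^ e').toNat)
  have h3 : (fun i => x i + (p : ℤ) ^ e * (((q i % (p : ℤ) ^ e').toNat : ℕ) : ℤ)) =
      (fun i => x i + (p : ℤ) ^ e * q i + (p : ℤ) ^ e' * (- p ^ e * (q i / (p : ℤ) ^ e'))) := by
    funext i
    rw [Int.toNat_of_nonneg (Int.emod_nonneg _ hp0.ne')]
    have := Int.mul_ediv_add_emod (q i) ((p : ℤ) ^ e')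
    linear_combination (p : ℤ) ^ e * this
  rw [← h3]
  exact h2

/-- the recurrences for linear combinations of two families and a constant -/
theorem rec_comb (hm : 0 < m) (O : Outer m) (w v : Fin k → List (Letter m)) {m' : ℕ} (hm' : 0 < m')
    (O' : Outer m') (w' v' : Fin k → List (Letter m')) (p a : ℕ) (F G H : LL p a) (i : Fin k) :
    ∃ Q : (LL p a)[X], Q.Monic ∧ aeval (Es (LL p a) i) Q
      (fun n => F * fam p a O w v n + G * fam p a O' w' v' n + H) = 0 := by
  obtain ⟨Q1, h1, h1'⟩ := rec_dir hm O w v i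
  obtain ⟨Q2, h2, h2'⟩ := rec_dir hm' O' w' v' i
  refine ⟨Q1.map (red p a) * Q2.map (red p a) * (Polynomial.X - 1), ?_, ?_⟩
  · have h3 : (Polynomial.X - 1 : (LL p a)[X]).Monic := by
      have := Polynomial.monic_X_sub_C (1 : LL p a)
      rwa [map_one] at this
    exact ((h1.map _).mul (h2.map _)).mul h3
  · have h3 : (fun n => F * fam p a O w v n + G * fam p a O' w' v' n + H) =
        F • fam p a O w v + G • fam p a O' w' v' + (fun _ => H) := rfl
    have hH : aeval (Es (LL p a) i) (Polynomial.X - 1 : (LL p a)[X]) (fun _ => H) = 0 := by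
      rw [map_sub, map_one, Polynomial.aeval_X, LinearMap.sub_apply]
      exact sub_self _
    rw [h3, map_add, map_add, map_smul, map_smul]
    have e1 : aeval (Es (LL p a) i)
        (Q1.map (red p a) * Q2.map (red p a) * (Polynomial.X - 1)) (fam p a O w v) = 0 := by
      rw [mul_assoc, mul_comm, map_mul, Module.End.mul_apply, h1' p a, map_zero]
    have e2 : aeval (Es (LL p a) i)
        (Q1.map (red p a) * Q2.map (red p a) * (Polynomial.X - 1)) (fam p a O' w' v') = 0 := by
      rw [mul_comm (Q1.map (red p a)), mul_assoc, mul_comm, map_mul, Module.End.mul_apply, h2' p a,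
        map_zero]
    have e3 : aeval (Es (LL p a) i)
        (Q1.map (red p a) * Q2.map (red p a) * (Polynomial.X - 1)) (fun _ => H) = 0 := by
      rw [map_mul, Module.End.mul_apply, hH, map_zero]
    rw [e1, e2, e3, smul_zero, smul_zero, add_zero, add_zero]

end Pool.Agent.H159.AJ
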