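import Pool.Graph.R_seed8.Y463.SK.Gen
import Pool.Agent.H159.AJ.Ker

/-!
# The recurrences of the normalised brackets of powers of braids
-/

set_option autoImplicit false

namespace Pool.Agent.H159.AJ

open Finset LaurentPolynomial Polynomial Pool.Agent.H891R2.Jones Pool.Agent.W639.RB Pool.Agent.Y463.SK

/-- The recurrence for the powers of a pure braid; the polynomial only depends on the braid and on the
directions of the strands. -/
theorem rec_pure {m : ℕ} (hm : 0 < m) (w : List (Bool × ℕ))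
    (hw : ∀ x ∈ w, x.2 + 1 < m) (hp : permL w = 1) (up : Fin m → Bool) :
    ∃ p : (ℤ[T;T⁻¹])[X], p.Monic ∧ p.natDegree ≤ m.factorial ∧
      (∀ j, (T 1 + 1 : ℤ[T;T⁻¹]) ^ (p.natDegree - j) ∣ p.coeff j) ∧
      ∀ (O : Outer m), O.up = up → ∀ (v : List (Bool × ℕ)), (∀ x ∈ v, x.2 + 1 < m) →
        aeval (Dl ℤ[T;T⁻¹]) p (fun n : ℤ => ff O (powL w n ++ v)) = 0 := by
  set c := costS w (pat up) with hc
  set u : ℤ[T;T⁻¹] := T (-3 * c) with hu
  have hcev : Even (-3 * c) := (even_cost w hw hp up).mul_left (-3)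
  have hpi : (T 1 + 1 : ℤ[T;T⁻¹]) ∣ u - 1 := pi_dvd_T_even _ hcev
  obtain ⟨p, hp1, hp2, hp3, hp4⟩ := exists_poly (A := (T 1 : ℤ[T;T⁻¹])) (A' := T (-1)) T_mul_inv rfl
    (isTLr_EB m) hm (EB_zero m) w hw hp u hpi
  refine ⟨p, hp1, hp2, hp3, ?_⟩
  rintro O rfl v hv
  set f : ℤ → ℤ[T;T⁻¹] := fun n => ff O (powL w n ++ v) with hf
  set X : ℤ → BB m := fun n => (T (-3 * (n * c)) : ℤ[T;T⁻¹]) • bb m (powL w n) with hX
  set b : BB m := u • bb m w with hb
  have hXs : ∀ n, X (n+1) = b * X n := by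
    intro n
    simp only [hX, hb]
    rw [bb_pow_succ w hw n, smul_mul_smul_comm, hu, ← T_add]
    congr 2
    ring
  set K : {N : ℕ // 3 ≤ N} → ℂ := fun N => (if Even (owr O + costS v (pat O.up)) then (1 : ℂ) else -1) *
        (Ar N.1) ^ (-3 * (owr O + costS v (pat O.up))) with hK
  have hpow : ∀ (N : {N : ℕ // 3 ≤ N}) (k : ℕ) (n : ℤ),
      (N.1 : ℂ) * ev N.1 N.2 (((Dl ℤ[T;T⁻¹]) ^ k) f n) = K N * Fn O N v ((b - 1) ^ k * X n) := by
    intro N k
    induction k with
    | zero =>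
      intro n
      rw [pow_zero, pow_zero, one_mul]
      exact key_formula hm O w hw hp v hv N n
    | succ k ih =>
      intro n
      have h1 : ((Dl ℤ[T;T⁻¹]) ^ (k+1)) f n =
          ((Dl ℤ[T;T⁻¹]) ^ k) f (n+1) - ((Dl ℤ[T;T⁻¹]) ^ k) f n := by
        rw [pow_succ', Module.End.mul_apply]
        rfl
      rw [h1, map_sub, mul_sub, ih (n+1), ih n, ← mul_sub, ← Fn_sub]
      congr 2
      rw [hXs, pow_succ]
      noncomm_ring
  funext n
  apply eq_zero_of_ev
  intro N hN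
  have hNC : (N : ℂ) ≠ 0 := by
    rw [Nat.cast_ne_zero]; omega
  have h1 : (N : ℂ) * ev N hN (Polynomial.aeval (Dl ℤ[T;T⁻¹]) p f n) =
      K ⟨N, hN⟩ * Fn O ⟨N, hN⟩ v (Polynomial.aeval (b - 1) p * X n) := by
    rw [Polynomial.aeval_eq_sum_range, Polynomial.aeval_eq_sum_range, LinearMap.sum_apply,
      Finset.sum_apply, map_sum, Finset.mul_sum, Finset.sum_mul]
    have h2 : ∀ (s : Finset ℕ) (g : ℕ → BB m), Fn O ⟨N, hN⟩ v (∑ i ∈ s, g i) =
        ∑ i ∈ s, Fn O ⟨N, hN⟩ v (g i) := by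
      classical
      intro s g
      induction s using Finset.induction_on with
      | empty => simp [Fn_zero]
      | insert a s ha ih => rw [Finset.sum_insert ha, Finset.sum_insert ha, Fn_add, ih]
    rw [h2, Finset.mul_sum]
    refine Finset.sum_congr rfl fun i _ => ?_
    have h3 := hpow ⟨N, hN⟩ i n
    simp only at h3
    rw [smul_mul_assoc, Fn_smul, LinearMap.smul_apply, Pi.smul_apply, smul_eq_mul, map_mul,
      mul_left_comm, h3]
    ring
  have hp5 : Polynomial.aeval (b - 1) p = 0 := hp4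
  rw [hp5, zero_mul, Fn_zero, mul_zero] at h1
  exact (mul_eq_zero.1 h1).resolve_left hNC

/-- high differences are divisible by high powers of `π` -/
theorem dl_dvd {R : Type*} [CommRing R] {π : R} (p : R[X]) (hp : p.Monic)
    (hc : ∀ j, π ^ (p.natDegree - j) ∣ p.coeff j) (f : ℤ → R) (hf : aeval (Dl R) p f = 0) (k : ℕ)
    (x : ℤ) : π ^ (k - p.natDegree) ∣ ((Dl R) ^ k) f x := by
  set D := p.natDegree with hD
  have hrec : ∀ (k : ℕ) (x : ℤ), ((Dl R) ^ (k + D)) f x =
      - ∑ j ∈ range D, p.coeff j * ((Dl R) ^ (k + j)) f x := by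
    intro k x
    have h1 : ((Dl R) ^ k * aeval (Dl R) p) f x = 0 := by
      rw [Module.End.mul_apply, hf, map_zero]; rfl
    rw [aeval_eq_sum_range, Finset.mul_sum, LinearMap.sum_apply, Finset.sum_apply,
      Finset.sum_range_succ, ← hD] at h1
    have h2 : ∀ j, ((Dl R ^ k * p.coeff j • Dl R ^ j) f x) = p.coeff j * (Dl R ^ (k + j)) f x := by
      intro j
      rw [mul_smul_comm, ← pow_add]
      rfl
    simp only [h2] at h1
    rw [hD, hp.coeff_natDegree, ← hD, one_mul] at h1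
    linear_combination h1
  induction k using Nat.strong_induction_on with
  | _ k ih =>
    rcases lt_or_ge k D with hk | hk
    · rw [Nat.sub_eq_zero_of_le hk.le, pow_zero]
      exact one_dvd _
    · obtain ⟨l, rfl⟩ : ∃ l, k = l + D := ⟨k - D, by omega⟩
      rw [hrec l x]
      apply (Finset.dvd_sum _).neg_right
      intro j hj
      rw [Finset.mem_range] at hj
      have h2 := mul_dvd_mul (hc j) (ih (l + j) (by omega))
      rw [← pow_add] at h2
      exact (pow_dvd_pow π (by omega)).trans h2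

/-- the binomial coefficients of a prime power -/
theorem dvd_choose {p : ℕ} (hp : p.Prime) {a e i : ℕ} (ha : a ≤ e) (hi : 0 < i)
    (h : ¬ p ^ a ∣ (p ^ e).choose i) : p ^ (e + 1 - a) ∣ i := by
  obtain ⟨v, u, hu, hiv⟩ := Nat.exists_eq_pow_mul_and_not_dvd hi.ne' p hp.ne_one
  by_cases hv : e + 1 - a ≤ v
  · rw [hiv]
    exact (pow_dvd_pow p hv).trans (dvd_mul_right _ _)
  · exfalso
    apply h
    push Not at hv
    obtain ⟨j, rfl⟩ : ∃ j, i = j + 1 := ⟨i - 1, by omega⟩
    obtain ⟨q, hq⟩ : ∃ q, p ^ e = q + 1 := ⟨p ^ e - 1, by have := pow_pos hp.pos e; omega⟩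
    have h1 := Nat.add_one_mul_choose_eq q j
    rw [← hq] at h1
    have h2 : p ^ e ∣ (p ^ e).choose (j + 1) * (j + 1) := by
      rw [← h1]
      exact dvd_mul_right _ _
    rw [hiv] at h2
    have h3 : p ^ e = p ^ v * p ^ (e - v) := by
      rw [← pow_add]
      congr 1
      omega
    rw [← hiv, hiv] at h2
    have h4 : p ^ v * p ^ (e - v) ∣ p ^ v * ((p ^ e).choose (j + 1) * u) := by
      rw [← h3]
      have : p ^ v * ((p ^ e).choose (j + 1) * u) = (p ^ e).choose (j + 1) * (p ^ v * u) := by ring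
      rw [this, ← hiv]
      rw [hiv]
      exact h2
    have h5 := Nat.dvd_of_mul_dvd_mul_left (pow_pos hp.pos v) h4
    have h6 : p ^ (e - v) ∣ (p ^ e).choose (j + 1) :=
      (Nat.Coprime.pow_left _ ((Nat.Prime.coprime_iff_not_dvd hp).2 hu)).dvd_of_dvd_mul_right h5
    exact (pow_dvd_pow p (by omega)).trans h6

end Pool.Agent.H159.AJ
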