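import Pool.Agent.H159.AJ.Frob

/-!
# Sequences with linear recurrences in all directions, modulo a prime power
-/

set_option autoImplicit false

namespace Pool.Agent.H159.AJ

open Finset LaurentPolynomial Polynomial

section Shift
variable {k : ℕ} {L : Type*} [CommRing L]

/-- the shift in the direction `i` -/
def Es (L : Type*) [CommRing L] {k : ℕ} (i : Fin k) : Module.End L ((Fin k → ℕ) → L) where
  toFun f := fun n => f (n + Pi.single i 1)
  map_add' _ _ := rfl
  map_smul' _ _ := rfl

theorem Es_pow (i : Fin k) (u : ℕ) (f : (Fin k → ℕ) → L) (n : Fin k → ℕ) :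
    ((Es L i) ^ u) f n = f (n + Pi.single i u) := by
  induction u generalizing n with
  | zero => simp
  | succ u ih =>
    rw [pow_succ', Module.End.mul_apply]
    show ((Es L i) ^ u) f (n + Pi.single i 1) = _
    rw [ih, add_assoc, ← Pi.single_add, add_comm 1 u]

theorem aeval_Es_apply (i : Fin k) (Q : L[X]) (f : (Fin k → ℕ) → L) (n : Fin k → ℕ) :
    (aeval (Es L i) Q) f n = Q.sum (fun u c => c * f (n + Pi.single i u)) := by
  rw [Polynomial.aeval_eq_sum_range, Polynomial.sum_over_range _ (by simp), LinearMap.sum_apply,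
    Finset.sum_apply]
  refine Finset.sum_congr rfl fun u _ => ?_
  rw [LinearMap.smul_apply, Pi.smul_apply, Es_pow, smul_eq_mul]

theorem aeval_Es_monomial (i : Fin k) (u : ℕ) (c : L) (f : (Fin k → ℕ) → L) (n : Fin k → ℕ) :
    (aeval (Es L i) (Polynomial.monomial u c)) f n = c * f (n + Pi.single i u) := by
  rw [aeval_Es_apply, Polynomial.sum_monomial_index _ _ (by simp)]

end Shift

section Tau
variable (p a : ℕ) (hp : 0 < p) {k : ℕ}

/-- the sections of a sequence -/
noncomputable def tau (r : Fin k → ℕ) (s : ℤ) (f : (Fin k → ℕ) → LL p a) : (Fin k → ℕ) → LL p a :=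
  fun n => lam p a hp s (f (fun i => p * n i + r i))

theorem tau_zero (r : Fin k → ℕ) (s : ℤ) : tau p a hp r s (0 : (Fin k → ℕ) → LL p a) = 0 := by
  funext n
  exact map_zero _

theorem tau_Phi (r : Fin k → ℕ) (s : ℤ) (i : Fin k) (Q : (LL p a)[X]) (f : (Fin k → ℕ) → LL p a) :
    tau p a hp r s (aeval (Es (LL p a) i) (Phi p a Q) f) =
      aeval (Es (LL p a) i) Q (tau p a hp r s f) := by
  induction Q using Polynomial.induction_on' with
  | add x y hx hy =>
    rw [map_add, map_add, map_add, LinearMap.add_apply, LinearMap.add_apply, ← hx, ← hy]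
    funext n
    exact map_add _ _ _
  | monomial u c =>
    funext n
    rw [Phi_monomial, aeval_Es_monomial]
    show lam p a hp s ((aeval (Es (LL p a) i)) ((Polynomial.monomial (p * u)) (phi p a c)) f _) = _
    rw [aeval_Es_monomial, lam_mul]
    show _ = c * lam p a hp s (f _)
    congr 3
    funext j
    rw [Pi.add_apply, Pi.add_apply]
    by_cases hj : j = i
    · subst hj
      rw [Pi.single_eq_same, Pi.single_eq_same]
      ring
    · rw [Pi.single_eq_of_ne hj, Pi.single_eq_of_ne hj]
      ring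

/-- the sections preserve the recurrences given by polynomials with `Φ G = G ^ p` -/
theorem tau_rec {i : Fin k} {G : (LL p a)[X]} (hG : G ^ p = Phi p a G) (r : Fin k → ℕ) (s : ℤ)
    {f : (Fin k → ℕ) → LL p a} (hf : aeval (Es (LL p a) i) G f = 0) :
    aeval (Es (LL p a) i) G (tau p a hp r s f) = 0 := by
  rw [← tau_Phi, ← hG]
  have : aeval (Es (LL p a) i) (G ^ p) f = 0 := by
    obtain ⟨q, rfl⟩ : ∃ q, p = q + 1 := ⟨p - 1, by omega⟩
    rw [pow_succ, map_mul, Module.End.mul_apply, hf, map_zero]
  rw [this, tau_zero]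

end Tau

/-! ### the finite class -/

section Class
variable (p a : ℕ) {k : ℕ}

/-- the sequences with given recurrences and slowly growing exponents -/
def Cls (G : Fin k → (LL p a)[X]) (D M : ℕ) : Set ((Fin k → ℕ) → LL p a) :=
  {f | (∀ i, aeval (Es (LL p a) i) (G i) f = 0) ∧
    ∀ n j, (f n).coeff j ≠ 0 → |j| ≤ D + M * ∑ i, (n i : ℤ)}

theorem tau_mem (hp : 0 < p) {G : Fin k → (LL p a)[X]} (hG : ∀ i, (G i) ^ p = Phi p a (G i))
    {D M : ℕ} (hD : M * k + 1 ≤ D) {f : (Fin k → ℕ) → LL p a} (hf : f ∈ Cls p a G D M)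
    {r : Fin k → ℕ} (hr : ∀ i, r i < p) {s : ℤ} (hs : 0 ≤ s) (hs' : s < p) :
    tau p a hp r s f ∈ Cls p a G D M := by
  refine ⟨fun i => tau_rec p a hp (hG i) r s (hf.1 i), fun n j hj => ?_⟩
  have h1 := hf.2 (fun i => p * n i + r i) (p * j + s) hj
  push_cast at h1
  rw [Finset.sum_add_distrib, ← Finset.mul_sum] at h1
  have h2 : ∑ i, (r i : ℤ) ≤ k * (p - 1) := by
    calc ∑ i, (r i : ℤ) ≤ ∑ _i : Fin k, ((p : ℤ) - 1) := by
          refine Finset.sum_le_sum fun i _ => ?_
          have := hr i
          omega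
      _ = k * (p - 1) := by
          rw [Finset.sum_const, Finset.card_univ, Fintype.card_fin, nsmul_eq_mul]
  have hp' : (0 : ℤ) < p := by exact_mod_cast hp
  have hD' : (M : ℤ) * k + 1 ≤ D := by exact_mod_cast hD
  have hM : (0 : ℤ) ≤ M := Nat.cast_nonneg _
  have h3 : (p : ℤ) * |j| ≤ |(p : ℤ) * j + s| + s := by
    have : |(p : ℤ) * j| = p * |j| := by rw [abs_mul, abs_of_pos hp']
    rw [← this]
    have h4 : (p : ℤ) * j = (p * j + s) - s := by ring
    calc |(p : ℤ) * j| = |((p : ℤ) * j + s) - s| := by rw [← h4]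
      _ ≤ |(p : ℤ) * j + s| + |s| := abs_sub _ _
      _ = _ := by rw [abs_of_nonneg hs]
  have h5 : (p : ℤ) * |j| ≤ p * (D + M * ∑ i, (n i : ℤ)) := by
    have h6 : (M : ℤ) * (p * ∑ i, (n i : ℤ) + ∑ i, (r i : ℤ)) ≤
        M * (p * ∑ i, (n i : ℤ) + k * (p - 1)) := by gcongr
    have h7 : s ≤ p - 1 := by omega
    have h8 : ((M : ℤ) * k + 1) * (p - 1) ≤ D * (p - 1) :=
      mul_le_mul_of_nonneg_right hD' (by omega)
    nlinarith
  exact le_of_mul_le_mul_left h5 hp'

/-- a monic recurrence determines a sequence by its values in a box -/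
theorem eq_zero_of_box {L : Type*} [CommRing L] {G : Fin k → L[X]} (hG : ∀ i, (G i).Monic)
    {f : (Fin k → ℕ) → L} (hf : ∀ i, aeval (Es L i) (G i) f = 0)
    (h0 : ∀ n, (∀ i, n i < (G i).natDegree) → f n = 0) : f = 0 := by
  have key : ∀ S : ℕ, ∀ n : Fin k → ℕ, ∑ i, n i = S → f n = 0 := by
    intro S
    induction S using Nat.strong_induction_on with
    | _ S ih =>
      intro n hn
      by_cases hbox : ∀ i, n i < (G i).natDegree
      · exact h0 n hbox
      push Not at hbox
      obtain ⟨i, hi⟩ := hbox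
      set N := (G i).natDegree with hN
      set n' : Fin k → ℕ := n - Pi.single i N with hn'
      have hnn : n' + Pi.single i N = n := by
        funext j
        rw [hn', Pi.add_apply, Pi.sub_apply]
        by_cases hj : j = i
        · subst hj; rw [Pi.single_eq_same]; omega
        · rw [Pi.single_eq_of_ne hj]; omega
      have h1 := congrFun (hf i) n'
      rw [aeval_Es_apply, Polynomial.sum_over_range _ (by simp), Finset.sum_range_succ, ← hN,
        hnn] at h1
      have h2 : (G i).coeff N = 1 := by rw [hN]; exact hG i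
      have h3 : ∑ u ∈ Finset.range N, (G i).coeff u * f (n' + Pi.single i u) = 0 := by
        refine Finset.sum_eq_zero fun u hu => ?_
        rw [Finset.mem_range] at hu
        have h4 : ∑ j, (n' + Pi.single i u : Fin k → ℕ) j < S := by
          rw [← hn, ← hnn]
          simp only [Pi.add_apply, Finset.sum_add_distrib, Finset.sum_pi_single']
          simp only [Finset.mem_univ, if_true]
          omega
        rw [ih _ h4 _ rfl, mul_zero]
      rw [h3, h2, one_mul, zero_add] at h1
      exact h1
  funext n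
  exact key _ n rfl

theorem Cls_finite (hp : 0 < p) {G : Fin k → (LL p a)[X]} (hG : ∀ i, (G i).Monic) (D M : ℕ) :
    (Cls p a G D M).Finite := by
  classical
  have : NeZero (p ^ a) := ⟨(pow_pos hp a).ne'⟩
  -- restriction to the box
  set B : ℕ := D + M * ∑ i, (G i).natDegree with hB
  let res : ((Fin k → ℕ) → LL p a) →
      ((i : Fin k) → Fin (G i).natDegree) → (Finset.Icc (-(B : ℤ)) B) → ZMod (p ^ a) :=
    fun f n j => (f (fun i => (n i : ℕ))).coeff j
  have hinj : Set.InjOn res (Cls p a G D M) := by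
    intro f hf g hg hfg
    rw [← sub_eq_zero]
    refine eq_zero_of_box hG (fun i => by rw [map_sub, hf.1 i, hg.1 i, sub_zero]) ?_
    intro n hn
    rw [Pi.sub_apply, sub_eq_zero]
    ext j
    by_cases hj : |j| ≤ B
    · have := congrFun (congrFun hfg (fun i => ⟨n i, hn i⟩)) ⟨j, by
        rw [Finset.mem_Icc]; exact abs_le.1 hj⟩
      exact this
    · have hn' : (D : ℤ) + M * ∑ i, (n i : ℤ) ≤ B := by
        rw [hB]
        push_cast
        gcongr with i _
        exact (hn i).le
      have h1 : (f n).coeff j = 0 := by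
        by_contra h
        exact hj ((hf.2 n j h).trans hn')
      have h2 : (g n).coeff j = 0 := by
        by_contra h
        exact hj ((hg.2 n j h).trans hn')
      rw [h1, h2]
  exact Set.Finite.of_finite_image (Set.toFinite _) hinj

end Class

end Pool.Agent.H159.AJ
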